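import Mathlib
import Pool.Agent.H923.Sizes

/-!
Disproof of Sauer's question on quasiregular subgraphs: for every real constant `C`, every integer
`k ≥ 2` and every `F` there is a finite graph with `n ≥ 1` vertices and at least `F n` edges in
which no subgraph (with at least one vertex) has all its degrees strictly between `k` and `C k`.
-/

namespace Pool.Agent.Results.MP_78fef3_co.NoQuasiregular

open Pool.Agent.H923

/-- A subgraph `H` is `(k, C)`-quasiregular: it has at least one vertex, and every vertex `x` of
`H` has degree (counted inside `H`) strictly between `k` and `C k`. -/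
def IsQuasiregular {V : Type} {G : SimpleGraph V} (k : ℕ) (C : ℝ) (H : G.Subgraph) : Prop :=
  H.verts.Nonempty ∧ ∀ x ∈ H.verts,
    (k : ℝ) < ((H.neighborSet x).ncard : ℝ) ∧ ((H.neighborSet x).ncard : ℝ) < C * k

/-- Pull a subgraph back along a relabelling of the vertices. -/
def pull {V W : Type} (e : V ≃ W) (G : SimpleGraph V)
    (H : (G.comap e.symm).Subgraph) : G.Subgraph where
  verts := e ⁻¹' H.verts
  Adj x y := H.Adj (e x) (e y)
  adj_sub := by
    intro x y h
    have := H.adj_sub h
    simpa using this
  edge_vert := by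
    intro x y h
    exact H.edge_vert h
  symm := ⟨fun x y h => H.symm.symm _ _ h⟩

theorem pull_ncard {V W : Type} (e : V ≃ W) (G : SimpleGraph V)
    (H : (G.comap e.symm).Subgraph) (x : V) :
    ((pull e G H).neighborSet x).ncard = (H.neighborSet (e x)).ncard := by
  have : (pull e G H).neighborSet x = e.symm '' (H.neighborSet (e x)) := by
    ext y
    simp only [SimpleGraph.Subgraph.mem_neighborSet, pull, Set.mem_image]
    constructor
    · intro h
      exact ⟨e y, h, by simp⟩
    · rintro ⟨z, hz, rfl⟩
      simpa using hz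
  rw [this, Set.ncard_image_of_injective _ e.symm.injective]

theorem pull_quasiregular {V W : Type} (e : V ≃ W) (G : SimpleGraph V)
    (H : (G.comap e.symm).Subgraph) (k : ℕ) (C : ℝ) (h : IsQuasiregular k C H) :
    IsQuasiregular k C (pull e G H) := by
  obtain ⟨⟨w, hw⟩, h2⟩ := h
  refine ⟨⟨e.symm w, by simpa [pull] using hw⟩, ?_⟩
  intro x hx
  rw [pull_ncard]
  exact h2 (e x) hx

theorem comap_edge_ncard {V W : Type} [Finite V] (e : V ≃ W) (G : SimpleGraph V) :
    (G.comap e.symm).edgeSet.ncard = G.edgeSet.ncard := by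
  have iso : (G.comap e.symm) ≃g G := SimpleGraph.Iso.comap e.symm G
  have h := Nat.card_congr iso.mapEdgeSet
  exact h

/-- **Negative answer to Sauer's question.** For every constant `C`, every integer `k ≥ 2` and
every `F` there are `n ≥ 1` and a graph on `n` vertices with at least `F n` edges that has no
`(k, C)`-quasiregular subgraph. -/
theorem result (C : ℝ) (k : ℕ) (hk : 2 ≤ k) (F : ℝ) :
    ∃ n : ℕ, 0 < n ∧ ∃ G : SimpleGraph (Fin n),
      F * n ≤ (G.edgeSet.ncard : ℝ) ∧ ∀ H : G.Subgraph, ¬ IsQuasiregular k C H := by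
  set t : ℕ := ⌈2 * |F|⌉₊ with ht
  set D : ℕ := ⌈C * k⌉₊ with hD
  obtain ⟨n, N, f, hn, hcard, hno⟩ := construction k D t hk
  set V := Fin n ⊕ (Σ i : Fin t, Fin (N i)) with hV
  set e : V ≃ Fin (Fintype.card V) := Fintype.equivFin V with he
  refine ⟨Fintype.card V, ?_, (layerGraph N f).comap e.symm, ?_, ?_⟩
  · rw [Fintype.card_sum, Fintype.card_fin]; omega
  · rw [comap_edge_ncard e]
    have h1 : ((t * n : ℕ) : ℝ) ≤ ((layerGraph N f).edgeSet.ncard : ℝ) := by
      exact_mod_cast card_edges_ge N f
    have h2 : (Fintype.card V : ℝ) ≤ 2 * n := by exact_mod_cast hcard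
    have h3 : 2 * |F| ≤ t := Nat.le_ceil _
    calc F * (Fintype.card V : ℝ) ≤ |F| * (Fintype.card V : ℝ) := by
          apply mul_le_mul_of_nonneg_right (le_abs_self F) (by positivity)
      _ ≤ |F| * (2 * n) := by
          apply mul_le_mul_of_nonneg_left h2 (abs_nonneg F)
      _ = (2 * |F|) * n := by ring
      _ ≤ t * n := by
          apply mul_le_mul_of_nonneg_right h3 (by positivity)
      _ = ((t * n : ℕ) : ℝ) := by push_cast; ring
      _ ≤ _ := h1
  · intro H hq
    obtain ⟨hne, h2⟩ := pull_quasiregular e (layerGraph N f) H k C hq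
    refine hno (pull e (layerGraph N f) H) hne ?_ ?_
    · intro x hx
      have := (h2 x hx).1
      have h4 : k < ((pull e (layerGraph N f) H).neighborSet x).ncard := by exact_mod_cast this
      omega
    · intro x hx
      have h4 := (h2 x hx).2
      have h5 : C * k ≤ (D : ℝ) := Nat.le_ceil _
      have h6 : (((pull e (layerGraph N f) H).neighborSet x).ncard : ℝ) ≤ (D : ℝ) := by linarith
      exact_mod_cast h6

end Pool.Agent.Results.MP_78fef3_co.NoQuasiregular
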